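import Mathlib

namespace Pool.Agent.Results.MP_c59173_co.Counter

/-- The ordered product set `T_1 ⋆ ⋯ ⋆ T_n`. -/
def prodSet {G : Type} [Group G] {n : ℕ} (T : Fin n → Set G) : Set G :=
  {g | ∃ s : Fin n → G, (∀ i, s i ∈ T i) ∧ (List.ofFn s).prod = g}

/-- `N_A`: the largest size of the product set in which `S i` is kept for `i ∈ A` and replaced by
a singleton `{x i}`, `x i ∈ S i`, for `i ∉ A`. -/
noncomputable def N {G : Type} [Group G] {n : ℕ} (S : Fin n → Set G) (A : Finset (Fin n)) : ℕ :=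
  sSup {k | ∃ x : Fin n → G, (∀ i, x i ∈ S i) ∧
    (prodSet (fun i => if i ∈ A then S i else {x i})).ncard = k}

abbrev D := DihedralGroup 4
abbrev G4 := D × D × D × D

def a : D := DihedralGroup.sr 0
def b : D := DihedralGroup.sr 1
def pw (x : D) (t : Bool) : D := if t then x else 1
abbrev B4 := Bool × Bool × Bool × Bool
def vec (x : D) (t : B4) : G4 := (pw x t.1, pw x t.2.1, pw x t.2.2.1, pw x t.2.2.2)
def e (x : D) (i : Fin 4) : G4 :=
  vec x (decide (i = 0), decide (i = 1), decide (i = 2), decide (i = 3))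

def SS : Fin 4 → Set G4 :=
  ![Set.range (vec a), Set.range (e b), Set.range (e a), Set.range (vec b)]

def idx (j : Fin 5) : Fin 4 × Fin 4 :=
  match j with
  | 0 => (0, 0) | 1 => (1, 1) | 2 => (2, 2) | 3 => (3, 3) | 4 => (0, 1)

def F (p : Fin 5 × B4 × B4) : G4 :=
  vec a p.2.1 * (e b (idx p.1).1 * (e a (idx p.1).2 * vec b p.2.2))

def dec (x : D) : Bool × Bool × Bool :=
  if x = 1 then (false, false, false) else if x = a then (true, false, false)
  else if x = b then (false, false, true) else if x = a * b then (true, false, true)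
  else if x = b * a then (false, true, false) else if x = a * (b * a) then (true, true, false)
  else if x = b * a * b then (false, true, true) else (true, true, true)

def Finv (g : G4) : Fin 5 × B4 × B4 :=
  let d0 := dec g.1
  let d1 := dec g.2.1
  let d2 := dec g.2.2.1
  let d3 := dec g.2.2.2
  let s : B4 := (d0.1, d1.1, d2.1, d3.1)
  let t : B4 := (d0.2.2, d1.2.2, d2.2.2, d3.2.2)
  if d0.2.1 then (0, s, t) else if d1.2.1 then (1, s, t) else if d2.2.1 then (2, s, t)
  else if d3.2.1 then (3, s, t)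
  else (4, (d0.1, !d1.1, d2.1, d3.1), (!d0.2.2, d1.2.2, d2.2.2, d3.2.2))

theorem Finv_F' : ∀ (j : Fin 5) (s t : B4), (Finv (F (j, s, t))).1 = j ∧
    (Finv (F (j, s, t))).2.1 = s ∧ (Finv (F (j, s, t))).2.2 = t := by
  decide +kernel

theorem Finv_F (j : Fin 5) (s t : B4) : Finv (F (j, s, t)) = (j, s, t) :=
  Prod.ext (Finv_F' j s t).1 (Prod.ext (Finv_F' j s t).2.1 (Finv_F' j s t).2.2)

theorem absorb : ∀ (i j : Fin 4) (t : B4), ∃ (t' : B4) (u : Bool),
    vec a t * (e b i * e a j) = vec a t' * (e b i * (if u then e a i else 1)) := by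
  decide +kernel

theorem absorb' : ∀ (i j : Fin 4) (t : B4), ∃ (t' : B4) (u : Bool),
    e b i * (e a j * vec b t) = (if u then e b j else 1) * (e a j * vec b t') := by
  decide +kernel

theorem big : 1280 ≤ (prodSet SS).ncard := by
  have hinj : Function.Injective F :=
    Function.LeftInverse.injective (g := Finv) (fun p => Finv_F p.1 p.2.1 p.2.2)
  have hsub : Set.range F ⊆ prodSet SS := by
    rintro _ ⟨p, rfl⟩
    refine ⟨![vec a p.2.1, e b (idx p.1).1, e a (idx p.1).2, vec b p.2.2], ?_, ?_⟩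
    · intro i; fin_cases i <;> simp [SS]
    · simp [List.ofFn_succ, F]
  have := Set.ncard_le_ncard hsub (Set.toFinite _)
  rw [Set.ncard_range_of_injective hinj] at this
  simpa using this

theorem le32 (T : Set G4) (f : B4 × Bool → G4) (h : T ⊆ Set.range f) : T.ncard ≤ 32 := by
  refine (Set.ncard_le_ncard h (Set.toFinite _)).trans ?_
  rw [← Set.image_univ]
  refine (Set.ncard_image_le (Set.toFinite _)).trans ?_
  rw [Set.ncard_univ]
  simp

theorem N02 : N SS {0, 2} ≤ 32 := by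
  refine csSup_le' ?_
  rintro k ⟨x, hx, rfl⟩
  obtain ⟨i, hi⟩ : ∃ i, e b i = x 1 := hx 1
  refine le32 _ (fun p => vec a p.1 * (e b i * (if p.2 then e a i else 1)) * x 3) ?_
  rintro g ⟨s, hs, rfl⟩
  obtain ⟨t, ht⟩ : ∃ t, vec a t = s 0 := hs 0
  have h1 : s 1 = x 1 := hs 1
  obtain ⟨j, hj⟩ : ∃ j, e a j = s 2 := hs 2
  have h3 : s 3 = x 3 := hs 3
  obtain ⟨t', u, h⟩ := absorb i j t
  refine ⟨(t', u), ?_⟩
  simp only
  rw [← h, ht, hi, hj, ← h1, ← h3]
  simp [List.ofFn_succ, mul_assoc]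

theorem N13 : N SS {1, 3} ≤ 32 := by
  refine csSup_le' ?_
  rintro k ⟨x, hx, rfl⟩
  obtain ⟨j, hj⟩ : ∃ j, e a j = x 2 := hx 2
  refine le32 _ (fun p => x 0 * ((if p.2 then e b j else 1) * (e a j * vec b p.1))) ?_
  rintro g ⟨s, hs, rfl⟩
  have h0 : s 0 = x 0 := hs 0
  obtain ⟨i, hi⟩ : ∃ i, e b i = s 1 := hs 1
  have h2 : s 2 = x 2 := hs 2
  obtain ⟨t, ht⟩ : ∃ t, vec b t = s 3 := hs 3
  obtain ⟨t', u, h⟩ := absorb' i j t
  refine ⟨(t', u), ?_⟩
  simp only
  rw [← h, ht, hi, hj, ← h0, ← h2]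
  simp [List.ofFn_succ]

theorem result : ∃ (G : Type) (_ : Group G) (n : ℕ) (S : Fin n → Set G), 1 ≤ n ∧
    (∀ i, (S i).Nonempty ∧ (S i).Finite) ∧
    ∀ l : Fin n → ℝ, (∀ i, 0 < l i) → ∏ i, l i = ((prodSet S).ncard : ℝ) →
      ∃ A : Finset (Fin n), (N S A : ℝ) < ∏ i ∈ A, l i := by
  refine ⟨G4, inferInstance, 4, SS, by norm_num, fun i => ⟨?_, Set.toFinite _⟩, ?_⟩
  · fin_cases i <;> exact Set.range_nonempty _
  · intro l hl hp
    by_contra hcon
    push Not at hcon
    have h1 := hcon {0, 2}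
    have h2 := hcon {1, 3}
    rw [Finset.prod_pair (by decide)] at h1 h2
    have h3 : (N SS {0, 2} : ℝ) ≤ 32 := by exact_mod_cast N02
    have h4 : (N SS {1, 3} : ℝ) ≤ 32 := by exact_mod_cast N13
    have h5 : (1280 : ℝ) ≤ ((prodSet SS).ncard : ℝ) := by exact_mod_cast big
    rw [Fin.prod_univ_four] at hp
    have h6 : l 0 * l 2 * (l 1 * l 3) ≤ 32 * 32 :=
      mul_le_mul (h1.trans h3) (h2.trans h4) (mul_pos (hl 1) (hl 3)).le (by norm_num)
    nlinarith

end Pool.Agent.Results.MP_c59173_co.Counter
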